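import Mathlib

/-!
# Intervals above `n` giving a square product with `n` : the linear algebra part
-/

set_option autoImplicit false

namespace Pool.Agent.EGS

open Finset

/-- some nonempty subset of `{n+1, …, n+t}` has a product which makes `n * product` a square -/
def HasSq (n t : ℕ) : Prop :=
  ∃ S ⊆ Finset.Icc (n + 1) (n + t), S.Nonempty ∧ IsSquare (n * ∏ a ∈ S, a)

/-- `t_n`: the least positive `t` with the property `HasSq n t` -/
noncomputable def tn (n : ℕ) : ℕ := sInf {t : ℕ | 0 < t ∧ HasSq n t}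

/-- `P(n)`: the largest prime factor of `n ≥ 2` -/
def bigP (n : ℕ) : ℕ := n.primeFactors.sup id

theorem le_bigP {n p : ℕ} (hn : n ≠ 0) (hp : p.Prime) (hd : p ∣ n) : p ≤ bigP n :=
  Finset.le_sup (f := id) (Nat.mem_primeFactors.2 ⟨hp, hd, hn⟩)

theorem bigP_spec {n : ℕ} (hn : 2 ≤ n) : (bigP n).Prime ∧ bigP n ∣ n := by
  have hne : n.primeFactors.Nonempty := Nat.nonempty_primeFactors.2 (by omega)
  obtain ⟨p, hp, he⟩ := Finset.exists_mem_eq_sup _ hne id
  unfold bigP
  rw [he]
  exact ⟨Nat.prime_of_mem_primeFactors hp, Nat.dvd_of_mem_primeFactors hp⟩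

theorem hasSq_exists {n : ℕ} (hn : 1 ≤ n) : 0 < 3 * n ∧ HasSq n (3 * n) := by
  refine ⟨by omega, {4 * n}, ?_, by simp, ?_⟩
  · intro a ha
    rw [mem_singleton] at ha
    rw [mem_Icc]
    omega
  · rw [prod_singleton]
    exact ⟨2 * n, by ring⟩

theorem tn_spec {n : ℕ} (hn : 1 ≤ n) : 0 < tn n ∧ HasSq n (tn n) :=
  Nat.sInf_mem (s := {t : ℕ | 0 < t ∧ HasSq n t}) ⟨3 * n, hasSq_exists hn⟩

theorem tn_le {n t : ℕ} (ht : 0 < t) (h : HasSq n t) : tn n ≤ t :=
  Nat.sInf_le (s := {t : ℕ | 0 < t ∧ HasSq n t}) ⟨ht, h⟩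

theorem even_fact_of_isSquare {m p : ℕ} (h : IsSquare m) : Even (m.factorization p) := by
  obtain ⟨r, rfl⟩ := h
  rcases eq_or_ne r 0 with rfl | hr
  · simp
  · rw [Nat.factorization_mul hr hr]
    exact ⟨r.factorization p, rfl⟩

theorem isSquare_of_even_fact {m : ℕ} (hm : m ≠ 0) (h : ∀ p, p.Prime → Even (m.factorization p)) :
    IsSquare m := by
  obtain ⟨a, b, hab, hsq⟩ := Nat.sq_mul_squarefree m
  have hb : b ≠ 0 := by rintro rfl; simp at hab; exact hm hab.symm
  have ha : a ≠ 0 := by rintro rfl; simp at hab; exact hm hab.symm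
  have ha1 : a = 1 := by
    by_contra hne
    obtain ⟨p, hp, hpa⟩ := Nat.exists_prime_and_dvd hne
    have h1 : a.factorization p = 1 := by
      have h2 : a.factorization p ≤ 1 := hsq.natFactorization_le_one p
      have h3 : 1 ≤ a.factorization p := (hp.dvd_iff_one_le_factorization ha).1 hpa
      omega
    have h2 := h p hp
    rw [← hab, Nat.factorization_mul (pow_ne_zero _ hb) ha, Nat.factorization_pow] at h2
    simp only [Finsupp.coe_add, Finsupp.coe_smul, Pi.add_apply, Pi.smul_apply, smul_eq_mul, h1] at h2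
    obtain ⟨c, hc⟩ := h2
    omega
  rw [ha1, mul_one] at hab
  exact ⟨b, by rw [← hab]; ring⟩

/-- the lower bound `P(n) ≤ t_n` when the square of `P(n)` does not divide `n` -/
theorem bigP_le_tn {n : ℕ} (hn : 2 ≤ n) (h : ¬ (bigP n)^2 ∣ n) : bigP n ≤ tn n := by
  obtain ⟨hp, hd⟩ := bigP_spec hn
  set p := bigP n with hpdef
  obtain ⟨_, S, hS, hne, hsq⟩ := tn_spec (show 1 ≤ n by omega)
  have hn0 : n ≠ 0 := by omega
  have hS0 : ∏ a ∈ S, a ≠ 0 := by
    rw [prod_ne_zero_iff]
    intro a ha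
    have := mem_Icc.1 (hS ha)
    omega
  have h1 : n.factorization p = 1 := by
    have h2 : 1 ≤ n.factorization p := (hp.dvd_iff_one_le_factorization hn0).1 hd
    have h3 : ¬ 2 ≤ n.factorization p := by
      intro h3
      exact h ((hp.pow_dvd_iff_le_factorization hn0).2 h3)
    omega
  have h2 := even_fact_of_isSquare (p := p) hsq
  rw [Nat.factorization_mul hn0 hS0] at h2
  simp only [Finsupp.coe_add, Pi.add_apply, h1] at h2
  have h3 : (∏ a ∈ S, a).factorization p ≠ 0 := by
    intro h0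
    rw [h0] at h2
    exact absurd h2 (by decide)
  have h4 : p ∣ ∏ a ∈ S, a := Nat.dvd_of_factorization_pos h3
  obtain ⟨a, ha, hpa⟩ := (hp.prime.dvd_finsetProd_iff _).1 h4
  have ha' := mem_Icc.1 (hS ha)
  have h5 : p ∣ a - n := Nat.dvd_sub hpa hd
  have h6 := Nat.le_of_dvd (by omega) h5
  omega

/-- **Linear algebra over `F_2`.** In a window of length `t`, the nonsquare integers all of whose prime
factors are at most `y` and with `t_n > t` are independent, so there are at most `π(y)` of them. -/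
theorem window (y t m : ℕ) (ht : 0 < t) (B : Finset ℕ) (hB : B ⊆ Finset.Ioc m (m + t))
    (hy : ∀ n ∈ B, ∀ p, p.Prime → p ∣ n → p ≤ y) (hsq : ∀ n ∈ B, ¬ IsSquare n)
    (htn : ∀ n ∈ B, t < tn n) : #B ≤ Nat.primeCounting y := by
  classical
  by_contra hcon
  push Not at hcon
  set Q : Finset ℕ := (Finset.range (y + 1)).filter Nat.Prime with hQ
  have hQc : #Q = Nat.primeCounting y := by
    rw [hQ, Nat.primeCounting, Nat.primeCounting', Nat.count_eq_card_filter_range]
  have hpos : ∀ n ∈ B, n ≠ 0 := by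
    intro n hn
    have := mem_Ioc.1 (hB hn)
    omega
  let f : Finset ℕ → Finset ℕ := fun D => Q.filter (fun p => Odd ((∏ a ∈ D, a).factorization p))
  have hmaps : ∀ D ∈ B.powerset, f D ∈ Q.powerset := by
    intro D _
    rw [mem_powerset]
    exact filter_subset _ _
  have hcard : #Q.powerset < #B.powerset := by
    rw [card_powerset, card_powerset]
    exact Nat.pow_lt_pow_right (by norm_num) (by omega)
  obtain ⟨D₁, hD₁, D₂, hD₂, hne, heq⟩ := exists_ne_map_eq_of_card_lt_of_maps_to hcard hmaps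
  rw [mem_powerset] at hD₁ hD₂
  have hp0 : ∀ D ⊆ B, ∏ a ∈ D, a ≠ 0 := by
    intro D hD
    rw [prod_ne_zero_iff]
    exact fun a ha => hpos a (hD ha)
  -- the product over the symmetric difference is a square
  set D := (D₁ \ D₂) ∪ (D₂ \ D₁) with hDdef
  have hDB : D ⊆ B := by
    intro a ha
    rw [hDdef, mem_union, mem_sdiff, mem_sdiff] at ha
    rcases ha with ha | ha
    · exact hD₁ ha.1
    · exact hD₂ ha.1
  have hprod : (∏ a ∈ D₁, a) * (∏ a ∈ D₂, a) = (∏ a ∈ D, a) * (∏ a ∈ D₁ ∩ D₂, a)^2 := by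
    have hd : Disjoint (D₁ \ D₂) (D₂ \ D₁) := by
      rw [disjoint_left]
      intro a ha hb
      rw [mem_sdiff] at ha hb
      exact ha.2 hb.1
    rw [hDdef, prod_union hd]
    have e1 : ∏ a ∈ D₁, a = (∏ a ∈ D₁ \ D₂, a) * ∏ a ∈ D₁ ∩ D₂, a := by
      rw [← prod_union (disjoint_sdiff_inter D₁ D₂), sdiff_union_inter]
    have e2 : ∏ a ∈ D₂, a = (∏ a ∈ D₂ \ D₁, a) * ∏ a ∈ D₁ ∩ D₂, a := by
      rw [inter_comm, ← prod_union (disjoint_sdiff_inter D₂ D₁), sdiff_union_inter]
    rw [e1, e2]; ring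
  have hDsq : IsSquare (∏ a ∈ D, a) := by
    apply isSquare_of_even_fact (hp0 D hDB)
    intro p hp
    have hI : ∏ a ∈ D₁ ∩ D₂, a ≠ 0 := hp0 _ (inter_subset_left.trans hD₁)
    have h1 := congrArg (fun m => m.factorization p) hprod
    simp only [Nat.factorization_mul (hp0 D₁ hD₁) (hp0 D₂ hD₂),
      Nat.factorization_mul (hp0 D hDB) (pow_ne_zero 2 hI), Nat.factorization_pow, Finsupp.coe_add,
      Finsupp.coe_smul, Pi.add_apply, Pi.smul_apply, smul_eq_mul] at h1
    have h2 : Even ((∏ a ∈ D₁, a).factorization p + (∏ a ∈ D₂, a).factorization p) := by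
      by_cases hpy : p ≤ y
      · have hpQ : p ∈ Q := by rw [hQ, mem_filter, mem_range]; exact ⟨by omega, hp⟩
        have h3 : p ∈ f D₁ ↔ p ∈ f D₂ := by rw [heq]
        simp only [f, mem_filter, hpQ, true_and] at h3
        rw [Nat.even_add, ← Nat.not_odd_iff_even, ← Nat.not_odd_iff_even, h3]
      · have h3 : ∀ E ⊆ B, (∏ a ∈ E, a).factorization p = 0 := by
          intro E hE
          apply Nat.factorization_eq_zero_of_not_dvd
          intro hd
          obtain ⟨a, ha, hpa⟩ := (hp.prime.dvd_finsetProd_iff _).1 hd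
          exact hpy (hy a (hE ha) p hp hpa)
        rw [h3 D₁ hD₁, h3 D₂ hD₂]
        decide
    rw [h1] at h2
    have h3 : Even (2 * (∏ a ∈ D₁ ∩ D₂, a).factorization p) := even_two_mul _
    exact (Nat.even_add.1 h2).2 h3
  have hDne : D.Nonempty := by
    rw [nonempty_iff_ne_empty]
    intro h0
    apply hne
    rw [hDdef, union_eq_empty, sdiff_eq_empty_iff_subset, sdiff_eq_empty_iff_subset] at h0
    exact subset_antisymm h0.1 h0.2
  set n := D.min' hDne with hn
  have hnD : n ∈ D := min'_mem _ _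
  have hnB : n ∈ B := hDB hnD
  have hsub : D.erase n ⊆ Finset.Icc (n + 1) (n + t) := by
    intro a ha
    rw [mem_erase] at ha
    have h1 : n ≤ a := min'_le _ _ ha.2
    have h2 := mem_Ioc.1 (hB (hDB ha.2))
    have h3 := mem_Ioc.1 (hB hnB)
    rw [mem_Icc]
    omega
  have hne2 : (D.erase n).Nonempty := by
    rw [nonempty_iff_ne_empty]
    intro h0
    have h1 : D = {n} := by
      rw [← insert_erase hnD, h0]
      rfl
    rw [h1, prod_singleton] at hDsq
    exact hsq n hnB hDsq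
  have hHas : HasSq n t := ⟨D.erase n, hsub, hne2, by rw [mul_prod_erase D (fun a => a) hnD]; exact hDsq⟩
  have := tn_le ht hHas
  have := htn n hnB
  omega

/-- counting version: at most `(N/t + 1) π(y)` nonsquare `y`-smooth `n ≤ N` have `t_n > t` -/
theorem count_bad (N y t : ℕ) (ht : 0 < t) (T : Finset ℕ) (hT : T ⊆ Finset.Icc 1 N)
    (hy : ∀ n ∈ T, ∀ p, p.Prime → p ∣ n → p ≤ y) (hsq : ∀ n ∈ T, ¬ IsSquare n)
    (htn : ∀ n ∈ T, t < tn n) : #T ≤ (N / t + 1) * Nat.primeCounting y := by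
  classical
  have h1 : ∀ n ∈ T, (n - 1) / t ∈ Finset.range (N / t + 1) := by
    intro n hn
    have := mem_Icc.1 (hT hn)
    rw [mem_range, Nat.lt_succ_iff]
    exact Nat.div_le_div_right (by omega)
  have h2 := card_le_mul_card_image_of_maps_to h1 (Nat.primeCounting y) (by
    intro i _
    apply window y t (i * t) ht
    · intro n hn
      rw [mem_filter] at hn
      have h3 := mem_Icc.1 (hT hn.1)
      have h4 := (Nat.div_eq_iff ht).1 hn.2
      rw [mem_Ioc]
      have h5 : i * t + t - 1 + 1 = i * t + t := by omega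
      omega
    · intro n hn
      exact hy n (mem_filter.1 hn).1
    · intro n hn
      exact hsq n (mem_filter.1 hn).1
    · intro n hn
      exact htn n (mem_filter.1 hn).1)
  rw [card_range, mul_comm] at h2
  exact h2

end Pool.Agent.EGS
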