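import Mathlib
import Pool.Agent.H11.EGS.Basic
import Pool.Agent.ESGcd.HT

/-!
# Almost all `n` have `P(n) ≤ t_n ≤ K P(n)`
-/

set_option autoImplicit false

namespace Pool.Agent.EGS

open Finset

/-- Chebyshev's upper bound. -/
theorem pi_le : ∃ C : ℝ, 0 < C ∧ ∀ x : ℝ, 2 ≤ x →
    (Nat.primeCounting ⌊x⌋₊ : ℝ) ≤ C * x / Real.log x := by
  refine ⟨2 * Real.log 4 + 2, ?_, ?_⟩
  · have : 0 < Real.log 4 := Real.log_pos (by norm_num)
    linarith
  intro x hx
  have h := Chebyshev.pi_le_log4_mul_div (show 1 < x by linarith)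
  refine h.trans ?_
  have hx0 : 0 < x := by linarith
  have hlog : 0 < Real.log x := Real.log_pos (by linarith)
  have h1 : Real.log √x = Real.log x / 2 := Real.log_sqrt hx0.le
  have hs0 : 0 < √x := Real.sqrt_pos.mpr hx0
  have hs : √x * √x = x := Real.mul_self_sqrt hx0.le
  have h2 : Real.log x ≤ 2 * √x := by
    have := Real.log_le_sub_one_of_pos hs0
    rw [h1] at this
    linarith
  have h3 : √x ≤ 2 * x / Real.log x := by
    rw [le_div_iff₀ hlog]
    nlinarith
  rw [h1]
  have h4 : Real.log 4 * x / (Real.log x / 2) = 2 * Real.log 4 * x / Real.log x := by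
    field_simp
  rw [h4]
  have h5 : (2 * Real.log 4 + 2) * x / Real.log x = 2 * Real.log 4 * x / Real.log x + 2 * x / Real.log x := by
    ring
  rw [h5]
  linarith

/-- the squares up to `N` -/
theorem card_squares (N : ℕ) :
    (#((Icc 1 N).filter (fun n => IsSquare n)) : ℝ) ≤ Real.sqrt N := by
  have h1 : (Icc 1 N).filter (fun n => IsSquare n) ⊆ (Icc 1 (Nat.sqrt N)).image (fun m => m * m) := by
    intro n hn
    rw [mem_filter, mem_Icc] at hn
    obtain ⟨m, rfl⟩ := hn.2
    rw [mem_image]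
    refine ⟨m, ?_, rfl⟩
    rw [mem_Icc]
    refine ⟨?_, Nat.le_sqrt.2 hn.1.2⟩
    rcases Nat.eq_zero_or_pos m with h0 | h0
    · subst h0; simp at hn
    · exact h0
  have h2 : #((Icc 1 N).filter (fun n => IsSquare n)) ≤ Nat.sqrt N := by
    refine (card_le_card h1).trans (card_image_le.trans ?_)
    simp
  calc (#((Icc 1 N).filter (fun n => IsSquare n)) : ℝ) ≤ (Nat.sqrt N : ℝ) := by exact_mod_cast h2
    _ ≤ Real.sqrt N := Real.nat_sqrt_le_real_sqrt

/-- the integers divisible by the square of an integer larger than `M` -/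
theorem card_square_div (N M : ℕ) (hM : 0 < M) (T : Finset ℕ) (hT : T ⊆ Icc 1 N)
    (h : ∀ n ∈ T, ∃ p, M < p ∧ p ^ 2 ∣ n) : (#T : ℝ) ≤ N / M := by
  classical
  by_cases hMN : M ≤ N
  swap
  · have : T = ∅ := by
      rw [eq_empty_iff_forall_notMem]
      intro n hn
      obtain ⟨p, hp, hpn⟩ := h n hn
      have h1 := mem_Icc.1 (hT hn)
      have h2 := Nat.le_of_dvd (by omega) hpn
      have h3 : p ≤ p ^ 2 := Nat.le_self_pow (by norm_num) p
      omega
    rw [this]
    simp
    positivity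
  have h1 : T ⊆ (Ioc M N).biUnion (fun p => (Icc 1 N).filter (fun n => p ^ 2 ∣ n)) := by
    intro n hn
    obtain ⟨p, hp, hpn⟩ := h n hn
    rw [mem_biUnion]
    refine ⟨p, ?_, mem_filter.2 ⟨hT hn, hpn⟩⟩
    have h1 := mem_Icc.1 (hT hn)
    have h2 := Nat.le_of_dvd (by omega) hpn
    have h3 : p ≤ p ^ 2 := Nat.le_self_pow (by norm_num) p
    rw [mem_Ioc]
    omega
  have h2 : ∀ p ∈ Ioc M N, (#((Icc 1 N).filter (fun n => p ^ 2 ∣ n)) : ℝ) ≤ N * ((p : ℝ) ^ 2)⁻¹ := by
    intro p hp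
    have h3 : #((Icc 1 N).filter (fun n => p ^ 2 ∣ n)) = N / p ^ 2 := by
      have := Nat.Ioc_filter_dvd_card_eq_div N (p ^ 2)
      rw [← this]
      congr 1
    rw [h3]
    have := @Nat.cast_div_le ℝ _ _ _ N (p ^ 2)
    push_cast at this
    rw [← div_eq_mul_inv]
    exact this
  have h3 : (#T : ℝ) ≤ ∑ p ∈ Ioc M N, (N : ℝ) * ((p : ℝ) ^ 2)⁻¹ := by
    have h4 : #T ≤ ∑ p ∈ Ioc M N, #((Icc 1 N).filter (fun n => p ^ 2 ∣ n)) :=
      (card_le_card h1).trans card_biUnion_le
    calc (#T : ℝ) ≤ ((∑ p ∈ Ioc M N, #((Icc 1 N).filter (fun n => p ^ 2 ∣ n)) : ℕ) : ℝ) := by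
          exact_mod_cast h4
      _ = ∑ p ∈ Ioc M N, (#((Icc 1 N).filter (fun n => p ^ 2 ∣ n)) : ℝ) := by push_cast; rfl
      _ ≤ _ := sum_le_sum h2
  rw [← mul_sum] at h3
  have h4 := sum_Ioc_inv_sq_le_sub (α := ℝ) (show M ≠ 0 by omega) hMN
  have h5 : (0 : ℝ) ≤ (N : ℝ)⁻¹ := by positivity
  calc (#T : ℝ) ≤ _ := h3
    _ ≤ N * (M : ℝ)⁻¹ := by
        apply mul_le_mul_of_nonneg_left _ (by positivity)
        linarith
    _ = N / M := by rw [div_eq_mul_inv]

theorem sum_inv_log (j0 : ℕ) (hj : 0 < j0) (m : ℕ) (hm : j0 ≤ m) :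
    ∑ j ∈ Ico j0 m, (1 : ℝ) / (j + 1) ≤ Real.log m - Real.log j0 := by
  induction m, hm using Nat.le_induction with
  | base => simp
  | succ m hm ih =>
    rw [sum_Ico_succ_top hm]
    have hm0 : (0 : ℝ) < m := by
      have : 0 < m := by omega
      exact_mod_cast this
    have h1 : (1 : ℝ) / (m + 1) ≤ Real.log ((m + 1 : ℕ) : ℝ) - Real.log m := by
      have h2 := Real.log_le_sub_one_of_pos (show (0 : ℝ) < m / (m + 1) by positivity)
      rw [Real.log_div (by positivity) (by positivity)] at h2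
      push_cast
      have h3 : (m : ℝ) / (m + 1) - 1 = - (1 / (m + 1)) := by field_simp; ring
      rw [h3] at h2
      linarith
    linarith

theorem sum_two_pow (m : ℕ) :
    ∑ j ∈ range m, (2 : ℝ) ^ j / (j + 1) ≤ 3 * 2 ^ m / (m + 1) := by
  induction m with
  | zero => simp
  | succ m ih =>
    rw [sum_range_succ]
    rcases Nat.eq_zero_or_pos m with rfl | hm
    · norm_num
    · have hm' : (1 : ℝ) ≤ m := by exact_mod_cast hm
      have h1 : 3 * (2 : ℝ) ^ m / (m + 1) + 2 ^ m / (m + 1) ≤ 3 * 2 ^ (m + 1) / (((m + 1 : ℕ) : ℝ) + 1) := by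
        rw [← add_div, div_le_div_iff₀ (by positivity) (by positivity), pow_succ]
        push_cast
        have : (0 : ℝ) < 2 ^ m := by positivity
        nlinarith
      linarith

/-- **Main counting theorem.** -/
theorem almost_all : ∃ C : ℝ, 0 < C ∧ ∀ K N : ℕ, 2 ≤ K → (K : ℝ) * Real.log K ≤ Real.log N →
    (#((Icc 2 N).filter (fun n => ¬ (bigP n ≤ tn n ∧ tn n ≤ K * bigP n))) : ℝ) ≤
      C * (Real.log K / K) * N := by
  classical
  obtain ⟨C1, hC1, hsv⟩ := ESGcd.sieve_bound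
  obtain ⟨C3, hC3, hpi⟩ := pi_le
  have hl2 : 0 < Real.log 2 := Real.log_pos (by norm_num)
  have hl2' : 0.69 < Real.log 2 := by have := Real.log_two_gt_d9; linarith
  refine ⟨(3 * C1 + 3 + 2 + (2 * C3 / Real.log 2) * 6) / Real.log 2 + (2 * C3 / Real.log 2) * 2,
    by positivity, ?_⟩
  intro K N hK hKN
  have hK2 : (2 : ℝ) ≤ K := by exact_mod_cast hK
  have hK0 : (0 : ℝ) < K := by linarith
  have hlK : Real.log 2 ≤ Real.log K := Real.log_le_log (by norm_num) hK2
  have hlogN : 2 * Real.log 2 ≤ Real.log N := by nlinarith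
  have hN4 : 4 ≤ N := by
    by_contra hcon
    push Not at hcon
    have h1 : Real.log N ≤ Real.log 3 := by
      rcases Nat.eq_zero_or_pos N with rfl | h0
      · simp
        exact Real.log_nonneg (by norm_num)
      · apply Real.log_le_log (by exact_mod_cast h0)
        have : N ≤ 3 := by omega
        exact_mod_cast this
    have h2 : Real.log 3 < Real.log 4 := Real.log_lt_log (by norm_num) (by norm_num)
    have h3 : Real.log 4 = 2 * Real.log 2 := by
      rw [show (4 : ℝ) = 2 ^ 2 by norm_num, Real.log_pow]; norm_num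
    linarith
  have hN0 : (0 : ℝ) < N := by
    have : 0 < N := by omega
    exact_mod_cast this
  obtain ⟨L, hL⟩ : ∃ L, L = Nat.log 2 N := ⟨_, rfl⟩
  have hL1 : 2 ^ L ≤ N := by rw [hL]; exact Nat.pow_log_le_self 2 (by omega)
  have hL2 : N < 2 ^ (L + 1) := by rw [hL]; exact Nat.lt_pow_succ_log_self (by norm_num) N
  have hL1r : (2 : ℝ) ^ L ≤ N := by exact_mod_cast hL1
  have hL2r : (N : ℝ) < 2 ^ (L + 1) := by exact_mod_cast hL2
  have hLl : (L : ℝ) * Real.log 2 ≤ Real.log N := by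
    rw [← Real.log_pow]
    exact Real.log_le_log (by positivity) hL1r
  have hLu : Real.log N < (L + 1) * Real.log 2 := by
    have := Real.log_lt_log hN0 hL2r
    rw [Real.log_pow] at this
    push_cast at this
    exact this
  have hLge : 1 ≤ L := by
    rw [hL]
    exact Nat.log_pos (by norm_num) (by omega)
  have hLge' : (1 : ℝ) ≤ L := by exact_mod_cast hLge
  have hKL : (K : ℝ) ≤ L + 1 := by
    by_contra hcon
    push Not at hcon
    have : (L + 1) * Real.log 2 ≤ K * Real.log K := by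
      apply mul_le_mul hcon.le hlK hl2.le hK0.le
    linarith
  obtain ⟨j0, hj0⟩ : ∃ j0, j0 = L / K + 1 := ⟨_, rfl⟩
  have hj0l : (L : ℝ) / K < j0 := by
    rw [div_lt_iff₀ hK0]
    have : L < j0 * K := by
      rw [hj0, mul_comm]
      exact Nat.lt_mul_div_succ L (by omega)
    exact_mod_cast this
  have hj0u : (j0 : ℝ) ≤ L / K + 1 := by
    rw [hj0]
    push_cast
    have := @Nat.cast_div_le ℝ _ _ _ L K
    linarith
  have hj01 : 1 ≤ j0 := by rw [hj0]; exact Nat.le_add_left 1 _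
  have hj0L : j0 ≤ L + 1 := by
    rw [hj0]
    have : L / K ≤ L := Nat.div_le_self L K
    omega
  have hKj : (K : ℝ) ≤ 2 * 2 ^ j0 := by
    have h1 : Real.log K ≤ (j0 + 1) * Real.log 2 := by
      have h2 : K * Real.log K < K * ((j0 + 1) * Real.log 2) := by
        calc K * Real.log K ≤ Real.log N := hKN
          _ < (L + 1) * Real.log 2 := hLu
          _ ≤ (K * (j0 + 1)) * Real.log 2 := by
            apply mul_le_mul_of_nonneg_right _ hl2.le
            rw [div_lt_iff₀ hK0] at hj0l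
            nlinarith
          _ = K * ((j0 + 1) * Real.log 2) := by ring
      exact (lt_of_mul_lt_mul_left h2 hK0.le).le
    have h3 : Real.log K ≤ Real.log (2 * 2 ^ j0) := by
      rw [Real.log_mul (by norm_num) (by positivity), Real.log_pow]
      linarith
    exact (Real.log_le_log_iff hK0 (by positivity)).1 h3
  -- the four exceptional sets
  set A1 := (Icc 1 N).filter (fun n => ∀ p, p.Prime → p ∣ n → p ≤ 2 ^ j0) with hA1
  set A2 := (Icc 1 N).filter (fun n => IsSquare n) with hA2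
  set A3 := (Icc 1 N).filter (fun n => ∃ p, 2 ^ j0 < p ∧ p ^ 2 ∣ n) with hA3
  set A4 : ℕ → Finset ℕ := fun j => (Icc 1 N).filter (fun n =>
    (∀ p, p.Prime → p ∣ n → p ≤ 2 ^ (j + 1)) ∧ ¬ IsSquare n ∧ K * 2 ^ j < tn n) with hA4
  have hcover : (Icc 2 N).filter (fun n => ¬ (bigP n ≤ tn n ∧ tn n ≤ K * bigP n)) ⊆
      A1 ∪ (A2 ∪ (A3 ∪ (Ico j0 (L + 1)).biUnion A4)) := by
    intro n hn
    rw [mem_filter, mem_Icc] at hn
    obtain ⟨⟨hn2, hnN⟩, hbad⟩ := hn
    have hnI : n ∈ Icc 1 N := mem_Icc.2 ⟨by omega, hnN⟩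
    obtain ⟨hpp, hpd⟩ := bigP_spec hn2
    simp only [mem_union, mem_biUnion]
    by_cases h1 : bigP n ≤ 2 ^ j0
    · left
      rw [hA1, mem_filter]
      exact ⟨hnI, fun p hp hd => (le_bigP (by omega) hp hd).trans h1⟩
    right
    by_cases h2 : IsSquare n
    · left
      rw [hA2, mem_filter]
      exact ⟨hnI, h2⟩
    right
    push Not at h1
    by_cases h3 : (bigP n) ^ 2 ∣ n
    · left
      rw [hA3, mem_filter]
      exact ⟨hnI, bigP n, h1, h3⟩
    right
    have h4 : K * bigP n < tn n := by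
      by_contra hcon
      push Not at hcon
      exact hbad ⟨bigP_le_tn hn2 h3, hcon⟩
    have hb0 : bigP n ≠ 0 := hpp.ne_zero
    refine ⟨Nat.log 2 (bigP n), ?_, ?_⟩
    · rw [mem_Ico]
      constructor
      · exact (Nat.le_log_iff_pow_le (by norm_num) hb0).2 h1.le
      · have : Nat.log 2 (bigP n) ≤ L := by
          rw [hL]
          exact Nat.log_mono_right ((Nat.le_of_dvd (by omega) hpd).trans hnN)
        omega
    · rw [hA4]
      simp only [mem_filter]
      refine ⟨hnI, ?_, h2, ?_⟩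
      · intro p hp hd
        exact ((le_bigP (by omega) hp hd).trans_lt (Nat.lt_pow_succ_log_self (by norm_num) _)).le
      · exact (Nat.mul_le_mul_left K (Nat.pow_log_le_self 2 hb0)).trans_lt h4
  -- sizes
  have hA1c : (#A1 : ℝ) ≤ 3 * C1 * (N / K) := by
    have hw : (2 : ℝ) ≤ 2 ^ j0 := by
      calc (2 : ℝ) = 2 ^ 1 := by norm_num
        _ ≤ 2 ^ j0 := pow_le_pow_right₀ (by norm_num) hj01
    have h1 := (hsv (2 ^ j0) (2 ^ j0) (2 ^ j0) hw le_rfl le_rfl).2 N A1 (by omega) (by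
      intro n hn
      rw [hA1, mem_filter] at hn
      refine ⟨hn.1, fun p hp hd => Or.inl ?_⟩
      exact_mod_cast hn.2 p hp hd)
    have hlw : 0 < Real.log ((2 : ℝ) ^ j0) := Real.log_pos (by linarith)
    rw [div_self hlw.ne', mul_one, Real.log_pow] at h1
    refine h1.trans ?_
    have hlN : 0 < Real.log N := by linarith
    have h2 : (j0 : ℝ) * Real.log 2 ≤ (3 / K) * Real.log N := by
      have h3 : (j0 : ℝ) ≤ 3 * L / K := by
        have h4 : (1 : ℝ) ≤ 2 * L / K := by
          rw [le_div_iff₀ hK0]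
          linarith
        have h5 : 3 * (L : ℝ) / K = L / K + 2 * L / K := by ring
        rw [h5]
        linarith
      calc (j0 : ℝ) * Real.log 2 ≤ (3 * L / K) * Real.log 2 := mul_le_mul_of_nonneg_right h3 hl2.le
        _ = (3 / K) * (L * Real.log 2) := by ring
        _ ≤ (3 / K) * Real.log N := mul_le_mul_of_nonneg_left hLl (by positivity)
    calc C1 * N / Real.log N * (j0 * Real.log 2) ≤ C1 * N / Real.log N * ((3 / K) * Real.log N) :=
          mul_le_mul_of_nonneg_left h2 (by positivity)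
      _ = 3 * C1 * (N / K) := by field_simp
  have hA2c : (#A2 : ℝ) ≤ 3 * (N / K) := by
    refine (card_squares N).trans ?_
    have hs0 : 0 < √(N : ℝ) := Real.sqrt_pos.mpr hN0
    have hs : √(N : ℝ) * √(N : ℝ) = N := Real.mul_self_sqrt hN0.le
    have h1 : Real.log √(N : ℝ) = Real.log N / 2 := Real.log_sqrt hN0.le
    have h2 := Real.log_le_sub_one_of_pos hs0
    rw [h1] at h2
    have h3 : (K : ℝ) ≤ 3 * √(N : ℝ) := by
      have h4 : (L : ℝ) * Real.log 2 ≤ 2 * √(N : ℝ) - 2 := by linarith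
      have h5 : (L : ℝ) * 0.69 ≤ 2 * √(N : ℝ) - 2 := by
        have : (L : ℝ) * 0.69 ≤ L * Real.log 2 := mul_le_mul_of_nonneg_left hl2'.le (by positivity)
        linarith
      linarith
    rw [← mul_div_assoc, le_div_iff₀ hK0]
    calc √(N : ℝ) * K ≤ √(N : ℝ) * (3 * √(N : ℝ)) := mul_le_mul_of_nonneg_left h3 hs0.le
      _ = 3 * N := by rw [← hs]; ring_nf; rw [Real.sq_sqrt (by positivity)]
  have hA3c : (#A3 : ℝ) ≤ 2 * (N / K) := by
    have h1 := card_square_div N (2 ^ j0) (by positivity) A3 (filter_subset _ _) (by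
      intro n hn
      rw [hA3, mem_filter] at hn
      exact hn.2)
    refine h1.trans ?_
    push_cast
    rw [← mul_div_assoc, div_le_div_iff₀ (by positivity) hK0]
    nlinarith
  have hA4c : ∀ j ∈ Ico j0 (L + 1), (#(A4 j) : ℝ) ≤
      (2 * C3 / Real.log 2) * ((N / K) * (1 / (j + 1)) + 2 ^ j / (j + 1)) := by
    intro j hj
    have h1 := count_bad N (2 ^ (j + 1)) (K * 2 ^ j) (by positivity) (A4 j) (filter_subset _ _)
      (fun n hn => (mem_filter.1 hn).2.1) (fun n hn => (mem_filter.1 hn).2.2.1)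
      (fun n hn => (mem_filter.1 hn).2.2.2)
    have h2 : (#(A4 j) : ℝ) ≤ ((N / (K * 2 ^ j) : ℕ) + 1 : ℝ) * (Nat.primeCounting (2 ^ (j + 1)) : ℝ) := by
      exact_mod_cast h1
    have h3 : (Nat.primeCounting (2 ^ (j + 1)) : ℝ) ≤ C3 * 2 ^ (j + 1) / ((j + 1) * Real.log 2) := by
      have hx : (2 : ℝ) ≤ ((2 ^ (j + 1) : ℕ) : ℝ) := by
        push_cast
        calc (2 : ℝ) = 2 ^ 1 := by norm_num
          _ ≤ 2 ^ (j + 1) := pow_le_pow_right₀ (by norm_num) (by omega)
      have h4 := hpi ((2 ^ (j + 1) : ℕ) : ℝ) hx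
      rw [Nat.floor_natCast] at h4
      push_cast at h4
      rw [Real.log_pow] at h4
      push_cast at h4
      exact h4
    have h4 : (((N / (K * 2 ^ j) : ℕ) : ℝ) + 1) ≤ N / (K * 2 ^ j) + 1 := by
      have := @Nat.cast_div_le ℝ _ _ _ N (K * 2 ^ j)
      push_cast at this
      linarith
    calc (#(A4 j) : ℝ) ≤ _ := h2
      _ ≤ (N / (K * 2 ^ j) + 1) * (C3 * 2 ^ (j + 1) / ((j + 1) * Real.log 2)) :=
          mul_le_mul h4 h3 (by positivity) (by positivity)
      _ = _ := by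
          rw [pow_succ]
          field_simp
  have hA4s : (#((Ico j0 (L + 1)).biUnion A4) : ℝ) ≤
      (2 * C3 / Real.log 2) * ((N / K) * (2 * Real.log K) + 6 * (N / K)) := by
    have h1 : (#((Ico j0 (L + 1)).biUnion A4) : ℝ) ≤ ∑ j ∈ Ico j0 (L + 1), (#(A4 j) : ℝ) := by
      have := card_biUnion_le (s := Ico j0 (L + 1)) (t := A4)
      exact_mod_cast this
    refine h1.trans ((sum_le_sum hA4c).trans ?_)
    rw [← mul_sum]
    apply mul_le_mul_of_nonneg_left _ (by positivity)
    rw [sum_add_distrib, ← mul_sum]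
    apply add_le_add
    · apply mul_le_mul_of_nonneg_left _ (by positivity)
      refine (sum_inv_log j0 (by omega) (L + 1) hj0L).trans ?_
      have hj00 : (0 : ℝ) < j0 := by exact_mod_cast hj01
      rw [← Real.log_div (by positivity) (by positivity)]
      have h2 : (((L + 1 : ℕ) : ℝ) / j0) ≤ K * K := by
        rw [div_le_iff₀ hj00]
        push_cast
        rw [div_lt_iff₀ hK0] at hj0l
        nlinarith
      calc Real.log (((L + 1 : ℕ) : ℝ) / j0) ≤ Real.log (K * K) := Real.log_le_log (by positivity) h2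
        _ = 2 * Real.log K := by rw [Real.log_mul hK0.ne' hK0.ne']; ring
    · calc ∑ j ∈ Ico j0 (L + 1), (2 : ℝ) ^ j / (j + 1) ≤ ∑ j ∈ range (L + 1), (2 : ℝ) ^ j / (j + 1) := by
            apply sum_le_sum_of_subset_of_nonneg
            · intro j hj
              rw [mem_Ico] at hj
              rw [mem_range]
              omega
            · intro j _ _
              positivity
        _ ≤ 3 * 2 ^ (L + 1) / (((L + 1 : ℕ) : ℝ) + 1) := sum_two_pow (L + 1)
        _ ≤ 6 * (N / K) := by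
            rw [← mul_div_assoc, div_le_div_iff₀ (by positivity) hK0]
            push_cast
            rw [pow_succ]
            have h3 : (2 : ℝ) ^ L * K ≤ N * (L + 1 + 1) :=
              mul_le_mul hL1r (by linarith) hK0.le hN0.le
            linarith
  -- conclusion
  have htot : (#((Icc 2 N).filter (fun n => ¬ (bigP n ≤ tn n ∧ tn n ≤ K * bigP n))) : ℝ) ≤
      #A1 + (#A2 + (#A3 + #((Ico j0 (L + 1)).biUnion A4))) := by
    have h1 := card_le_card hcover
    have h2 := card_union_le A1 (A2 ∪ (A3 ∪ (Ico j0 (L + 1)).biUnion A4))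
    have h3 := card_union_le A2 (A3 ∪ (Ico j0 (L + 1)).biUnion A4)
    have h4 := card_union_le A3 ((Ico j0 (L + 1)).biUnion A4)
    have h5 : #((Icc 2 N).filter (fun n => ¬ (bigP n ≤ tn n ∧ tn n ≤ K * bigP n))) ≤
        #A1 + (#A2 + (#A3 + #((Ico j0 (L + 1)).biUnion A4))) := by omega
    exact_mod_cast h5
  have hfin : (#A1 : ℝ) + (#A2 + (#A3 + #((Ico j0 (L + 1)).biUnion A4))) ≤
      (3 * C1 + 3 + 2 + (2 * C3 / Real.log 2) * 6) * (N / K) +
        (2 * C3 / Real.log 2) * 2 * (Real.log K * (N / K)) := by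
    have : (2 * C3 / Real.log 2) * ((N / K) * (2 * Real.log K) + 6 * (N / K)) =
      (2 * C3 / Real.log 2) * 6 * (N / K) + (2 * C3 / Real.log 2) * 2 * (Real.log K * (N / K)) := by ring
    rw [this] at hA4s
    linarith
  refine htot.trans (hfin.trans ?_)
  have h1 : (N : ℝ) / K ≤ (1 / Real.log 2) * (Real.log K * (N / K)) := by
    rw [← mul_assoc]
    have : 1 ≤ 1 / Real.log 2 * Real.log K := by
      rw [div_mul_eq_mul_div, one_mul, le_div_iff₀ hl2]
      linarith
    have h2 : (0 : ℝ) ≤ N / K := by positivity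
    nlinarith
  have h2 : (0 : ℝ) ≤ 3 * C1 + 3 + 2 + (2 * C3 / Real.log 2) * 6 := by positivity
  calc _ ≤ (3 * C1 + 3 + 2 + (2 * C3 / Real.log 2) * 6) * ((1 / Real.log 2) * (Real.log K * (N / K))) +
        (2 * C3 / Real.log 2) * 2 * (Real.log K * (N / K)) := by
        have := mul_le_mul_of_nonneg_left h1 h2
        linarith
    _ = _ := by ring

/-- density form: for every `ω → ∞`, almost all `n` satisfy `P(n) ≤ t_n ≤ ω(n) P(n)` -/
theorem density_one (w : ℕ → ℝ) (hw : Filter.Tendsto w Filter.atTop Filter.atTop) :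
    Filter.Tendsto (fun N : ℕ => (#((Icc 2 N).filter (fun n => bigP n ≤ tn n ∧
      (tn n : ℝ) ≤ w n * bigP n)) : ℝ) / N) Filter.atTop (nhds 1) := by
  classical
  obtain ⟨C, hC, h⟩ := almost_all
  rw [Metric.tendsto_atTop]
  intro e he
  -- choose `K`
  have hlim : Filter.Tendsto (fun K : ℕ => C * (Real.log K / K)) Filter.atTop (nhds 0) := by
    have h1 : Filter.Tendsto (fun x : ℝ => Real.log x / x) Filter.atTop (nhds 0) := by
      have := Real.isLittleO_log_id_atTop.tendsto_div_nhds_zero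
      exact this
    have h2 := (h1.comp tendsto_natCast_atTop_atTop).const_mul C
    simpa using h2
  have h1 := (Metric.tendsto_atTop.1 hlim) (e / 3) (by linarith)
  obtain ⟨K0, hK0⟩ := h1
  obtain ⟨K, hK⟩ : ∃ K, K = max K0 2 := ⟨_, rfl⟩
  have hK2 : 2 ≤ K := by rw [hK]; exact le_max_right _ _
  have hKK : C * (Real.log K / K) < e / 3 := by
    have h3 := hK0 K (by rw [hK]; exact le_max_left _ _)
    rw [Real.dist_eq, sub_zero] at h3
    exact (le_abs_self _).trans_lt h3
  -- choose the starting point for `w ≥ K`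
  obtain ⟨n0, hn0⟩ := Filter.eventually_atTop.1 (hw.eventually_ge_atTop (K : ℝ))
  -- choose `N`
  have h3 : ∀ᶠ N : ℕ in Filter.atTop, (K : ℝ) * Real.log K ≤ Real.log N :=
    (Real.tendsto_log_atTop.comp tendsto_natCast_atTop_atTop).eventually_ge_atTop _
  have h4 : ∀ᶠ N : ℕ in Filter.atTop, (3 / e) * (n0 + 1 : ℝ) < (N : ℝ) :=
    tendsto_natCast_atTop_atTop.eventually_gt_atTop _
  obtain ⟨N0, hN0⟩ := Filter.eventually_atTop.1 (h3.and (h4.and (Filter.eventually_ge_atTop 2)))
  refine ⟨N0, fun N hN => ?_⟩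
  obtain ⟨hlog, hbig, hN2⟩ := hN0 N hN
  have hNpos : (0 : ℝ) < N := by
    have : 0 < N := by omega
    exact_mod_cast this
  set G := (Icc 2 N).filter (fun n => bigP n ≤ tn n ∧ (tn n : ℝ) ≤ w n * bigP n) with hG
  set B := (Icc 2 N).filter (fun n => ¬ (bigP n ≤ tn n ∧ tn n ≤ K * bigP n)) with hB
  have hcov : Icc 1 N ⊆ G ∪ (B ∪ Icc 1 (n0 + 1)) := by
    intro n hn
    rw [mem_Icc] at hn
    simp only [mem_union]
    by_cases h5 : n ≤ n0 + 1
    · right; right; rw [mem_Icc]; omega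
    · push Not at h5
      have h6 : n ∈ Icc 2 N := mem_Icc.2 ⟨by omega, hn.2⟩
      by_cases h7 : bigP n ≤ tn n ∧ tn n ≤ K * bigP n
      · left
        rw [hG, mem_filter]
        refine ⟨h6, h7.1, ?_⟩
        have h8 : (tn n : ℝ) ≤ K * bigP n := by exact_mod_cast h7.2
        have h9 := hn0 n (by omega)
        exact h8.trans (mul_le_mul_of_nonneg_right h9 (by positivity))
      · right; left
        rw [hB, mem_filter]
        exact ⟨h6, h7⟩
  have h5 : (N : ℝ) ≤ #G + (#B + (n0 + 1)) := by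
    have h6 := card_le_card hcov
    have h7 := card_union_le G (B ∪ Icc 1 (n0 + 1))
    have h8 := card_union_le B (Icc 1 (n0 + 1))
    rw [Nat.card_Icc] at h6
    have h9 : #(Icc 1 (n0 + 1)) = n0 + 1 := by simp
    have h10 : N ≤ #G + (#B + (n0 + 1)) := by omega
    exact_mod_cast h10
  have h6 : (#G : ℝ) ≤ N := by
    have : #G ≤ N := by
      calc #G ≤ #(Icc 2 N) := card_filter_le _ _
        _ ≤ N := by rw [Nat.card_Icc]; omega
    exact_mod_cast this
  have h7 := h K N hK2 hlog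
  rw [← hB] at h7
  have h8 : (#B : ℝ) ≤ e / 3 * N := by
    refine h7.trans (mul_le_mul_of_nonneg_right hKK.le hNpos.le)
  have h9 : (n0 + 1 : ℝ) < e / 3 * N := by
    have := mul_lt_mul_of_pos_left hbig (show 0 < e / 3 by linarith)
    have h10 : e / 3 * (3 / e * (n0 + 1 : ℝ)) = n0 + 1 := by field_simp
    rw [h10] at this
    exact this
  rw [Real.dist_eq, abs_lt]
  constructor
  · rw [lt_sub_iff_add_lt, lt_div_iff₀ hNpos]
    nlinarith
  · have : (#G : ℝ) / N ≤ 1 := by rw [div_le_one hNpos]; exact h6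
    linarith

end Pool.Agent.EGS
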